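import Pool.Agent.VRJ.TFin

/-!
# An oracle relative to which `P ≠ NP` and `VP ≠ VNP`

`MP_50b9ba_lc`, Q1. Oracles, machines and circuits are as in `RelativizationBarrier`: machines and
circuits may ask for the Taylor coefficients of the oracle polynomials along curves. Every oracle `A` is
contained in an oracle relative to which the classes `P` and `NP` over the complex numbers are
different, and `VP` and `VNP` are different too. So the implication of Q1 has no relativizing
refutation either, even if `VP ≠ VNP` is presupposed.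

The definitions are in `Pool/Agent/VRJ/Defs.lean`.
-/

namespace Pool.Agent.Results.MP_50b9ba_lc.OraclePNotNP

open MvPolynomial VRJ

theorem result (A : Orc) :
    ∃ Φ : Orc, (∀ L, Φ (3 * L) = rename (Fin.castLE (by omega)) (A L)) ∧
      (∃ B, InNP Φ B ∧ ¬ InP Φ B) ∧
      ∃ f : ℕ → MvPolynomial ℕ ℂ, InVNP Φ f ∧
        (∀ n, (f n).totalDegree ≤ n ∧ ∀ v ∈ (f n).vars, v < n) ∧
        (∀ n s, s ^ 2 * (s + 1) < 2 ^ n → ¬ Comp Φ s (f n)) ∧ ¬ InVP Φ f :=
  VRJ.second A

end Pool.Agent.Results.MP_50b9ba_lc.OraclePNotNP
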